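import Mathlib
import Pool.Prelude.Def_F_b1b78ff3
import Pool.Agent.X285.FT.Dj

/-!
# A lattice of linearly disjoint Galois extensions over which all profinite groups are realizable

Let `K` be a number field, or any countable Hilbertian field of characteristic zero.  To every set
`J` of natural numbers there is attached a Galois extension `F J` of `K` (all in one algebraic
closure of `K`), with `F ∅ = K`, such that unions of sets correspond to composita and intersections
to intersections of fields (in particular `F J` and `F J'` are linearly disjoint over `K` if `J` and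
`J'` are disjoint), and such that for every nonempty `J`: the Galois group of `F J` over `K` is a
product of *perfect* finite groups `(A_m ≀ A_n) ≀ A_r`; every inverse limit of a sequence of finite
groups, in particular every finite group, is the Galois group of a Galois extension of `F J`; no
subfield of `F J` except `K` embeds into a given finite extension `M` of `K`; and, if `K` is a number
field, every finite extension of `F J` has the Northcott property.
-/

set_option autoImplicit false

open Nfff32c05 Pool.Agent.H391R2 Pool.Agent.Y793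

namespace Pool.Agent.Results.MP_dadaab_nt.FreeBaseField

/-- `K` is Hilbertian: every monic irreducible `f ∈ K[T][X]` which is separable over `K(T)` has an
irreducible specialization `f(a, X)` with `g(a) ≠ 0`, for every nonzero polynomial `g`. -/
def IsHilbertian (K : Type) [Field K] : Prop :=
  ∀ f : Polynomial (Polynomial K), f.Monic → Irreducible f →
    (f.map (algebraMap (Polynomial K) (FractionRing (Polynomial K)))).Separable →
    ∀ g : Polynomial K, g ≠ 0 →
      ∃ a : K, g.eval a ≠ 0 ∧ Irreducible (f.map (Polynomial.evalRingHom a))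

/-- The Northcott property: there are only finitely many elements of bounded absolute logarithmic
Weil height. -/
def Northcott (F : Type) [Field F] [CharZero F] : Prop :=
  ∀ R : ℝ, {x : F | NumberField.absLogHeight₁ x ≤ R}.Finite

/-- The wreath product `A_m ≀ A_n` of two alternating groups. -/
def AltWr2 (m n : ℕ) : Type := AWr (alternatingGroup (Fin m)) n

/-- The group structure of `AltWr2 m n`. -/
instance altWr2Group (m n : ℕ) : Group (AltWr2 m n) :=
  inferInstanceAs (Group (AWr (alternatingGroup (Fin m)) n))

/-- The iterated wreath product `(A_m ≀ A_n) ≀ A_r` of alternating groups. -/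
def AltWr3 (m n r : ℕ) : Type := AWr (AltWr2 m n) r

/-- The group structure of `AltWr3 m n r`. -/
instance altWr3Group (m n r : ℕ) : Group (AltWr3 m n r) :=
  inferInstanceAs (Group (AWr (AltWr2 m n) r))

/-- The inverse limit of the sequence `W 0 ← W 1 ← W 2 ← ...`: the group of all sequences `x` with
`p i (x (i + 1)) = x i`. -/
abbrev InvLim {W : ℕ → Type} [∀ i, Group (W i)] (p : ∀ i, W (i + 1) →* W i) : Subgroup (∀ i, W i) :=
  Pool.Agent.TH15.IGP.Lim p

/-- The defining property of the inverse limit. -/
theorem mem_invLim {W : ℕ → Type} [∀ i, Group (W i)] (p : ∀ i, W (i + 1) →* W i)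
    (x : ∀ i, W i) : x ∈ InvLim p ↔ ∀ i, p i (x (i + 1)) = x i := Iff.rfl

/-- The numbers whose first component, under the pairing of `ℕ × ℕ` with `ℕ`, lies in `J`. -/
abbrev Idx (J : Set ℕ) : Type := {i : ℕ // (Nat.unpair i).1 ∈ J}

/-- `F / K` is a Galois extension with group the product of the groups `AltWr3 (m i) (n i) (r i)`
for `i` in `Idx J`, in such a way that the kernels of the components are open. -/
def HasGroup (K F : Type) [Field K] [Field F] [Algebra K F] (m n r : ℕ → ℕ) (J : Set ℕ) : Prop :=
  IsGalois K F ∧ ∃ e : (F ≃ₐ[K] F) ≃* ∀ i : Idx J, AltWr3 (m i) (n i) (r i),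
    ∀ i, IsOpen {σ : F ≃ₐ[K] F | e σ i = 1}

/-- Every inverse limit of a sequence of finite groups and epimorphisms is the Galois group of a
Galois extension of `F`. -/
def RealizesLimits (F : Type) [Field F] : Prop :=
  ∀ (W : ℕ → Type) [∀ i, Group (W i)] [∀ i, Finite (W i)] (p : ∀ i, W (i + 1) →* W i),
    (∀ i, Function.Surjective (p i)) → IsRealizable F (InvLim p)

/-- No field between `K` and `F`, except `K`, embeds into `M` over `K`. -/
def DisjointFrom (K F M : Type) [Field K] [Field F] [Field M] [Algebra K F] [Algebra K M] : Prop :=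
  ∀ E : IntermediateField K F, Nonempty (E →ₐ[K] M) → E = ⊥

/-- Every finite extension of `F` has the Northcott property. -/
def NorthcottExt (F : Type) [Field F] : Prop :=
  ∀ (F' : Type) [Field F'] [CharZero F'] [Algebra F F'] [FiniteDimensional F F'], Northcott F'

end Pool.Agent.Results.MP_dadaab_nt.FreeBaseField

open Pool.Agent.Results.MP_dadaab_nt.FreeBaseField in
/-- A lattice of Galois extensions over which all profinite groups are realizable. -/
theorem Pool.Agent.Results.MP_dadaab_nt.FreeBaseField.result (K : Type) [Field K]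
    [CharZero K] [Countable K] (hK : NumberField K ∨ IsHilbertian K)
    (M : Type) [Field M] [Algebra K M] [FiniteDimensional K M] (b : ℕ) :
    ∃ (Ω : Type) (_ : Field Ω) (_ : Algebra K Ω), IsAlgClosure K Ω ∧
      ∃ (m n r : ℕ → ℕ) (F : Set ℕ → IntermediateField K Ω),
        (∀ i, b ≤ m i ∧ b ≤ n i ∧ b ≤ r i ∧ commutator (AltWr3 (m i) (n i) (r i)) = ⊤) ∧
        F ∅ = ⊥ ∧ (∀ J J', F (J ∪ J') = F J ⊔ F J') ∧ (∀ J J', F (J ∩ J') = F J ⊓ F J') ∧
        ∀ J : Set ℕ, J.Nonempty → HasGroup K (F J) m n r J ∧ DisjointFrom K (F J) M ∧
          RealizesLimits (F J) ∧ (NumberField K → NorthcottExt (F J)) := by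
  obtain ⟨Ω, i1, i2, i3, m, n, r, F, h1, h2, h3, h4, h5⟩ := Pool.Agent.X285.FT.disjD K hK M b
  refine ⟨Ω, i1, i2, i3, m, n, r, F, h1, h2, h3, h4, fun J hJ => ?_⟩
  obtain ⟨h6, h7, h8, h9, h10⟩ := h5 J hJ
  exact ⟨⟨h6, h7⟩, h8, fun W _ _ p hp => Pool.Agent.X285.FT.realize_lim (F J) h9 W p hp,
    fun hn F' _ _ _ _ => h10 hn F'⟩
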