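import Mathlib
import Pool.Agent.X285.NC.Sml

/-!
# The inverse Galois problem over a field with the Northcott property

There is `N : ℕ → ℕ` such that for every sequence of integers `n i ≥ N i` and every number field
`M` there is a Galois extension `F` of `ℚ` with Galois group `∏ S_(n i)` which has the Northcott
property (only finitely many elements of bounded height), is totally real, has finite local degrees
at all primes, has no subfield except `ℚ` in common with `M`, and over which the inverse Galois
problem has a positive answer in this strong sense: every countable product of finite groups is the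
Galois group of a Galois extension `F'` of `F` which again has the Northcott property, is totally
real and has finite local degrees at all primes.
-/

set_option autoImplicit false

namespace Pool.Agent.Results.MP_dadaab_nt.NorthcottBaseField

/-- The Northcott property: there are only finitely many elements of bounded absolute logarithmic
Weil height. -/
def Northcott (F : Type) [Field F] [CharZero F] : Prop :=
  ∀ R : ℝ, {x : F | NumberField.absLogHeight₁ x ≤ R}.Finite

/-- For every prime `p` and every embedding `σ` of `F` into an algebraic closure of `ℚ_p` the field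
`ℚ_p(σ(F))` is a finite extension of `ℚ_p`. -/
def FiniteLocalDegrees (F : Type) [Field F] : Prop :=
  ∀ (p : ℕ) [Fact p.Prime] (σ : F →+* AlgebraicClosure ℚ_[p]),
    FiniteDimensional ℚ_[p] (IntermediateField.adjoin ℚ_[p] (Set.range σ))

end Pool.Agent.Results.MP_dadaab_nt.NorthcottBaseField

open Pool.Agent.Results.MP_dadaab_nt.NorthcottBaseField in
/-- The inverse Galois problem over a field with the Northcott property. -/
theorem Pool.Agent.Results.MP_dadaab_nt.NorthcottBaseField.result :
    ∃ N : ℕ → ℕ, ∀ n : ℕ → ℕ, (∀ i, N i ≤ n i) → ∀ (M : Type) [Field M] [NumberField M],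
      ∃ (F : Type) (_ : Field F) (_ : CharZero F) (_ : IsGalois ℚ F)
        (e : (F ≃ₐ[ℚ] F) ≃* ∀ i, Equiv.Perm (Fin (n i))),
        (∀ i, IsOpen {σ : F ≃ₐ[ℚ] F | e σ i = 1}) ∧
        (Northcott F ∧ NumberField.IsTotallyReal F ∧ FiniteLocalDegrees F) ∧
        (∀ E : IntermediateField ℚ F, Nonempty (E →ₐ[ℚ] M) → E = ⊥) ∧
        ∀ (ι : Type) [Countable ι] (H : ι → Type) [∀ i, Group (H i)] [∀ i, Finite (H i)],
          ∃ (F' : Type) (_ : Field F') (_ : CharZero F') (_ : Algebra F F') (_ : IsGalois F F'),
            Nonempty ((∀ i, H i) ≃* (F' ≃ₐ[F] F')) ∧
            (Northcott F' ∧ NumberField.IsTotallyReal F' ∧ FiniteLocalDegrees F') :=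
  Pool.Agent.X285.NC.final
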