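import Mathlib
import Pool.Prelude.Def_F_b1b78ff3
import Pool.Agent.X285.PA.Fin
import Pool.Agent.H391R2.T4.Abl

/-!
# The inverse Galois problem over Galois extensions with perfect group

Let `K` be a number field, or more generally a Hilbertian field of characteristic zero (for example
`K = ℚ`).  There is a Galois extension `F / K` whose Galois group is a product
`∏ A_(n i) ≀ A_(r i)` of *perfect* finite groups (wreath products of two alternating groups) such
that every finite group, and even every product of countably many finite groups, is the Galois group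
of a Galois extension of `F`.  In particular no finite solvable Galois extension `E ≠ K` of `K` is
contained in `F`; moreover `F` can be chosen linearly disjoint from a given finite extension `M` of
`K`, and the numbers `n i`, `r i` can be chosen above any given bound and strictly increasing.
-/

set_option autoImplicit false

open Nfff32c05 Pool.Agent.H391R2 Pool.Agent.Y793

namespace Pool.Agent.Results.MP_dadaab_nt.PerfectBaseField

/-- The wreath product `A_n ≀ A_r`: the elements of `A_n ≀ S_r = (A_n)^r ⋊ S_r` whose
component in `S_r` is even. -/
abbrev AltWr (n r : ℕ) : Type := AWr (alternatingGroup (Fin n)) r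

theorem result (K : Type) [Field K] [CharZero K] (hK : NumberField K ∨ T4.HilbField K)
    (M : Type) [Field M] [Algebra K M] [FiniteDimensional K M] (b : ℕ) :
    ∃ (n r : ℕ → ℕ) (F : Type) (_ : Field F) (_ : Algebra K F) (_ : IsGalois K F)
      (e : (F ≃ₐ[K] F) ≃* ∀ i, AltWr (n i) (r i)),
      (StrictMono n ∧ StrictMono r ∧ ∀ i, b ≤ n i ∧ b ≤ r i) ∧
      (∀ i, commutator (AltWr (n i) (r i)) = ⊤) ∧
      (∀ i, IsOpen {σ : F ≃ₐ[K] F | e σ i = 1}) ∧
      (∀ E : IntermediateField K F, FiniteDimensional K E → IsGalois K E →
        Group.IsSolvable (E ≃ₐ[K] E) → E = ⊥) ∧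
      (∀ E : IntermediateField K F, Nonempty (E →ₐ[K] M) → E = ⊥) ∧
      ∀ (ι : Type) [Countable ι] (H : ι → Type) [∀ i, Group (H i)] [∀ i, Finite (H i)],
        IsRealizable F (∀ i, H i) := by
  refine Pool.Agent.X285.PA.final K (Pool.Agent.TH377.IG.spec_hilb ?_) M b
  rcases hK with hK | hK
  · exact T4.hilb_numberField K
  · exact hK

end Pool.Agent.Results.MP_dadaab_nt.PerfectBaseField
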