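import Mathlib
import Pool.Agent.X126.UN.Final

/-!
# The inverse Galois problem by everywhere unramified extensions over a Northcott field

There is `N : ℕ → ℕ` such that for every sequence of integers `n i ≥ N i`, every finite set `S` of primes
and every number field `M` there is a Galois extension `F` of `ℚ` with Galois group `∏ S_(n i)` which has
the Northcott property (only finitely many elements of bounded height), has finite local degrees at all
primes, has no subfield except `ℚ` in common with `M`, and over which the *unramified* inverse Galois
problem has a positive answer in this strong sense: every countable product of finite groups is the Galois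
group of a Galois extension `F' / F` all of whose inertia groups (at all primes and all infinite places) are
trivial, and `F'` again has the Northcott property and finite local degrees at all primes; the primes of `S`
are totally split in `F'`.

The `i`-th step is a Galois extension of `ℚ` with group `{(f, σ) ∈ A ≀ S_n : ∏ [f j] = 1}` whose inertia
groups are generated by elements over transpositions (library file `H391R2/U/Main6`), in which all primes up
to a large bound and all primes ramified in the previous steps are totally split; the heights and the local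
degrees in towers of this kind are treated in `X285/NC`.
-/

set_option autoImplicit false

namespace Pool.Agent.Results.MP_dadaab_nt.UnramifiedNorthcott

open NumberField

/-- The Northcott property: there are only finitely many elements of bounded absolute logarithmic
Weil height. -/
def Northcott (F : Type) [Field F] [CharZero F] : Prop :=
  ∀ R : ℝ, {x : F | NumberField.absLogHeight₁ x ≤ R}.Finite

/-- For every prime `p` and every embedding `σ` of `F` into an algebraic closure of `ℚ_p` the field
`ℚ_p(σ(F))` is a finite extension of `ℚ_p`. -/
def FiniteLocalDegrees (F : Type) [Field F] : Prop :=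
  ∀ (p : ℕ) [Fact p.Prime] (σ : F →+* AlgebraicClosure ℚ_[p]),
    FiniteDimensional ℚ_[p] (IntermediateField.adjoin ℚ_[p] (Set.range σ))

/-- The prime `p` is totally split in `F`: all embeddings of `F` into an algebraic closure of `ℚ_p` take
values in `ℚ_p`. -/
def TotallySplit (p : ℕ) [Fact p.Prime] (F : Type) [Field F] : Prop :=
  ∀ (σ : F →+* AlgebraicClosure ℚ_[p]) (x : F),
    σ x ∈ (algebraMap ℚ_[p] (AlgebraicClosure ℚ_[p])).range

/-- All inertia groups of the (infinite) Galois extension `F' / F` are trivial: for every nonzero prime
ideal `P` of the ring `𝓞 F'` of all algebraic integers of `F'` only the identity satisfies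
`σ a ≡ a (mod P)` for all `a`, and only the identity is a complex conjugation for an embedding of `F'`
into `ℂ`. -/
def UnramifiedEverywhere (F F' : Type) [Field F] [Field F'] [Algebra F F'] : Prop :=
  (∀ P : Ideal (𝓞 F'), P.IsPrime → P ≠ ⊥ → ∀ σ : F' ≃ₐ[F] F',
    (∀ a b : 𝓞 F', σ a = b → b - a ∈ P) → σ = 1) ∧
  ∀ (φ : F' →+* ℂ) (σ : F' ≃ₐ[F] F'), (∀ x, φ (σ x) = (starRingEnd ℂ) (φ x)) → σ = 1

end Pool.Agent.Results.MP_dadaab_nt.UnramifiedNorthcott

open Pool.Agent.Results.MP_dadaab_nt.UnramifiedNorthcott in
/-- The unramified inverse Galois problem over a field with the Northcott property. -/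
theorem Pool.Agent.Results.MP_dadaab_nt.UnramifiedNorthcott.result :
    ∃ N : ℕ → ℕ, ∀ n : ℕ → ℕ, (∀ i, N i ≤ n i) →
      ∀ (S : Finset ℕ) (M : Type) [Field M] [NumberField M],
      ∃ (F : Type) (_ : Field F) (_ : CharZero F) (_ : IsGalois ℚ F)
        (e : (F ≃ₐ[ℚ] F) ≃* ∀ i, Equiv.Perm (Fin (n i))),
        (∀ i, IsOpen {σ : F ≃ₐ[ℚ] F | e σ i = 1}) ∧
        (Northcott F ∧ FiniteLocalDegrees F) ∧
        (∀ E : IntermediateField ℚ F, Nonempty (E →ₐ[ℚ] M) → E = ⊥) ∧
        ∀ (ι : Type) [Countable ι] (H : ι → Type) [∀ i, Group (H i)] [∀ i, Finite (H i)],
          ∃ (F' : Type) (_ : Field F') (_ : CharZero F') (_ : Algebra F F') (_ : IsGalois F F'),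
            Nonempty ((∀ i, H i) ≃* (F' ≃ₐ[F] F')) ∧ UnramifiedEverywhere F F' ∧
            (Northcott F' ∧ FiniteLocalDegrees F' ∧
              ∀ (p : ℕ) [Fact p.Prime], p ∈ S → TotallySplit p F') :=
  Pool.Agent.X126.UN.final
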